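import Mathlib

set_option autoImplicit false
open scoped NNReal

namespace Pool.Agent.Lib.MP_29ad01_pr

/-- Last passage time from `(0,0)` to `(n,n)` in the environment `b`: the supremum of
`∑_{i=0}^{n} (b i (z_i) - b i (z_{i-1}))` over `0 = z_{-1} ≤ z_0 ≤ ... ≤ z_n = n`
(the vector `z` is indexed by `Fin (n+2)`, entry `i+1` being `z_i`). -/
noncomputable def lpp (n : ℕ) (b : ℕ → ℝ≥0 → ℝ) : ℝ :=
  sSup {s : ℝ | ∃ z : Fin (n + 2) → ℝ≥0, Monotone z ∧ z 0 = 0 ∧ z (Fin.last (n + 1)) = n ∧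
    s = ∑ i : Fin (n + 1), (b i (z i.succ) - b i (z i.castSucc))}

end Pool.Agent.Lib.MP_29ad01_pr
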