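import Mathlib

/-!
The rotation argument (Maurey-Pisier style) for the maximum of a finite Gaussian family.
-/

set_option autoImplicit false
open MeasureTheory ProbabilityTheory Filter Topology
open scoped ENNReal NNReal

namespace Pool.Agent.Lib.MP_29ad01_pr

variable {Ω : Type*} {mΩ : MeasurableSpace Ω} {P : Measure Ω}

/-- one-sided sub-Gaussian bound on the Laplace transform -/
def SubG (P : Measure Ω) (D : Ω → ℝ) (c : ℝ) : Prop :=
  AEMeasurable D P ∧ ∀ l : ℝ, 0 ≤ l →
    ∫⁻ ω, ENNReal.ofReal (Real.exp (l * D ω)) ∂P ≤ ENNReal.ofReal (Real.exp (c * l ^ 2 / 2))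

lemma SubG.of_tendsto {D : Ω → ℝ} {c : ℝ} {F : ℕ → Ω → ℝ} (hF : ∀ n, SubG P (F n) c)
    (hlim : ∀ᵐ ω ∂P, Tendsto (fun n => F n ω) atTop (𝓝 (D ω))) : SubG P D c := by
  refine ⟨aemeasurable_of_tendsto_metrizable_ae' (fun n => (hF n).1) hlim, fun l hl => ?_⟩
  have h1 : ∀ᵐ ω ∂P, ENNReal.ofReal (Real.exp (l * D ω)) =
      liminf (fun n => ENNReal.ofReal (Real.exp (l * F n ω))) atTop := by
    filter_upwards [hlim] with ω hω
    symm
    apply Tendsto.liminf_eq
    exact ENNReal.tendsto_ofReal (Real.continuous_exp.continuousAt.tendsto.comp (hω.const_mul l))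
  rw [lintegral_congr_ae h1]
  refine (lintegral_liminf_le' (fun n => ?_)).trans ?_
  · have := (hF n).1
    fun_prop
  · exact liminf_le_of_frequently_le' (Frequently.of_forall fun n => (hF n).2 l hl)

lemma SubG.of_le {D E : Ω → ℝ} {c : ℝ} (hE : SubG P E c) (hD : AEMeasurable D P)
    (h : ∀ ω, D ω ≤ E ω) : SubG P D c := by
  refine ⟨hD, fun l hl => le_trans (lintegral_mono fun ω => ?_) (hE.2 l hl)⟩
  apply ENNReal.ofReal_le_ofReal
  apply Real.exp_le_exp.2
  exact mul_le_mul_of_nonneg_left (h ω) hl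

lemma SubG.mono {D : Ω → ℝ} {c c' : ℝ} (hD : SubG P D c) (h : c ≤ c') : SubG P D c' := by
  refine ⟨hD.1, fun l hl => (hD.2 l hl).trans ?_⟩
  apply ENNReal.ofReal_le_ofReal
  apply Real.exp_le_exp.2
  have := sq_nonneg l
  nlinarith

lemma SubG.tail {D : Ω → ℝ} {c : ℝ} (hD : SubG P D c) (hc : 0 < c) {e : ℝ} (he : 0 ≤ e) :
    P {ω | e ≤ D ω} ≤ ENNReal.ofReal (Real.exp (-e ^ 2 / (2 * c))) := by
  have hl : 0 ≤ e / c := div_nonneg he hc.le
  have h1 := hD.2 (e / c) hl
  have hm : AEMeasurable (fun ω => ENNReal.ofReal (Real.exp (e / c * D ω))) P := by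
    have := hD.1
    fun_prop
  have h2 := mul_meas_ge_le_lintegral₀ hm (ENNReal.ofReal (Real.exp (e / c * e)))
  have h3 : P {ω | e ≤ D ω} ≤
      P {ω | ENNReal.ofReal (Real.exp (e / c * e)) ≤ ENNReal.ofReal (Real.exp (e / c * D ω))} := by
    apply measure_mono
    intro ω hω
    apply ENNReal.ofReal_le_ofReal
    apply Real.exp_le_exp.2
    exact mul_le_mul_of_nonneg_left hω hl
  have h4 : ENNReal.ofReal (Real.exp (e / c * e)) * P {ω | e ≤ D ω} ≤
      ENNReal.ofReal (Real.exp (c * (e / c) ^ 2 / 2)) :=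
    le_trans (by gcongr) (h2.trans h1)
  have h5 : ENNReal.ofReal (Real.exp (c * (e / c) ^ 2 / 2)) =
      ENNReal.ofReal (Real.exp (e / c * e)) * ENNReal.ofReal (Real.exp (-e ^ 2 / (2 * c))) := by
    rw [← ENNReal.ofReal_mul (Real.exp_pos _).le, ← Real.exp_add]
    congr 2
    field_simp
    ring
  rw [h5] at h4
  exact (ENNReal.mul_le_mul_iff_right (by simp [Real.exp_pos]) ENNReal.ofReal_ne_top).1 h4

lemma SubG.average {m : ℕ} (hm : 0 < m) {Z : ℕ → Ω → ℝ} {c s : ℝ} (hs : 0 ≤ s)
    (hZ : ∀ k, SubG P (Z k) c) :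
    SubG P (fun ω => s * ∑ k ∈ Finset.range m, Z k ω) (c * (m * s) ^ 2) := by
  have hmeas : ∀ k, AEMeasurable (Z k) P := fun k => (hZ k).1
  have hm' : (0 : ℝ) < m := by exact_mod_cast hm
  refine ⟨by fun_prop, fun l hl => ?_⟩
  have h1 : ∀ ω, ENNReal.ofReal (Real.exp (l * (s * ∑ k ∈ Finset.range m, Z k ω))) ≤
      ∑ k ∈ Finset.range m, ENNReal.ofReal (1 / m) *
        ENNReal.ofReal (Real.exp ((l * (m * s)) * Z k ω)) := by
    intro ω
    have hJ := convexOn_exp.map_sum_le (t := Finset.range m) (w := fun _ => (1 / m : ℝ))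
      (p := fun k => (l * (m * s)) * Z k ω) (fun _ _ => by positivity)
      (by simp; field_simp) (fun _ _ => Set.mem_univ _)
    have e : ∑ k ∈ Finset.range m, (1 / m : ℝ) • ((l * (m * s)) * Z k ω) =
        l * (s * ∑ k ∈ Finset.range m, Z k ω) := by
      rw [Finset.mul_sum, Finset.mul_sum]
      apply Finset.sum_congr rfl
      intro k _
      rw [smul_eq_mul]
      field_simp
    rw [e] at hJ
    refine (ENNReal.ofReal_le_ofReal hJ).trans ?_
    rw [ENNReal.ofReal_sum_of_nonneg (fun _ _ => by positivity)]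
    apply le_of_eq
    apply Finset.sum_congr rfl
    intro k _
    rw [smul_eq_mul, ENNReal.ofReal_mul (by positivity)]
  refine (lintegral_mono h1).trans ?_
  rw [lintegral_finsetSum' _ (fun k _ => by have := hmeas k; fun_prop)]
  have h2 : ∀ k ∈ Finset.range m, ∫⁻ ω, ENNReal.ofReal (1 / m) *
      ENNReal.ofReal (Real.exp ((l * (m * s)) * Z k ω)) ∂P ≤
      ENNReal.ofReal (1 / m) * ENNReal.ofReal (Real.exp (c * (m * s) ^ 2 * l ^ 2 / 2)) := by
    intro k _
    rw [lintegral_const_mul'' _ (by have := hmeas k; fun_prop)]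
    gcongr
    refine ((hZ k).2 _ (by positivity)).trans (le_of_eq ?_)
    congr 2
    ring
  refine (Finset.sum_le_sum h2).trans (le_of_eq ?_)
  rw [Finset.sum_const, Finset.card_range, nsmul_eq_mul, ← mul_assoc]
  have : (m : ℝ≥0∞) * ENNReal.ofReal (1 / m) = 1 := by
    rw [← ENNReal.ofReal_natCast, ← ENNReal.ofReal_mul hm'.le]
    simp [hm'.ne']
  rw [this, one_mul]

lemma lintegral_exp_gaussian {Z : Ω → ℝ} (hZ : HasGaussianLaw Z P) (h0 : P[Z] = 0) {c : ℝ}
    (hc : cov[Z, Z; P] ≤ c) (l : ℝ) :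
    ∫⁻ ω, ENNReal.ofReal (Real.exp (l * Z ω)) ∂P ≤ ENNReal.ofReal (Real.exp (c * l ^ 2 / 2)) := by
  have hmap := hZ.map_eq_gaussianReal
  have hm := hZ.aemeasurable
  have hint : Integrable (fun ω => Real.exp (l * Z ω)) P := by
    have := integrable_exp_mul_gaussianReal (μ := P[Z]) (v := Var[Z; P].toNNReal) l
    rw [← hmap] at this
    exact (integrable_map_measure (by fun_prop) hm).1 this
  rw [← ofReal_integral_eq_lintegral_ofReal hint (ae_of_all _ fun ω => (Real.exp_pos _).le)]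
  apply ENNReal.ofReal_le_ofReal
  have := mgf_gaussianReal hmap l
  rw [mgf] at this
  rw [this, h0, Real.exp_le_exp, Real.coe_toNNReal _ (variance_nonneg _ _),
    ← covariance_self hm]
  have := sq_nonneg l
  nlinarith

lemma isGaussianProcess_of_span {T S : Type*} {G : T → Ω → ℝ} {Y : S → Ω → ℝ}
    (hG : IsGaussianProcess G P) (h : ∀ s, Y s ∈ Submodule.span ℝ (Set.range G)) :
    IsGaussianProcess Y P := by
  apply hG.of_isGaussianProcess
  intro s
  obtain ⟨c, hc⟩ := Finsupp.mem_span_range_iff_exists_finsupp.1 (h s)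
  refine ⟨c.support, ∑ t : c.support, c t • ContinuousLinearMap.proj t, fun ω => ?_⟩
  rw [← hc]
  simp [Finsupp.sum, Finset.sum_attach c.support (fun t => c t * G t ω)]

lemma exists_argmax (J : Type*) [Fintype J] [Nonempty J] :
    ∃ s : (J → ℝ) → J, (∀ j, MeasurableSet {x | s x = j}) ∧ ∀ (x : J → ℝ) (i : J), x i ≤ x (s x) := by
  classical
  obtain ⟨e, he⟩ := exists_surjective_nat J
  have hp : ∀ x : J → ℝ, ∃ k, ∀ i, x i ≤ x (e k) := by
    intro x
    obtain ⟨j, hj⟩ := Finite.exists_max x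
    obtain ⟨k, rfl⟩ := he j
    exact ⟨k, hj⟩
  have hm : Measurable fun x => Nat.find (hp x) := by
    apply measurable_find
    intro k
    simp only [Set.ofPred_forall]
    exact MeasurableSet.iInter fun i => measurableSet_le (by fun_prop) (by fun_prop)
  refine ⟨fun x => e (Nat.find (hp x)), fun j => ?_, fun x => Nat.find_spec (hp x)⟩
  exact hm (MeasurableSet.of_discrete (s := {k | e k = j}))

lemma subG_select {J : Type*} [Fintype J] {X Y : J → Ω → ℝ}
    (hG : IsGaussianProcess (Sum.elim X Y) P) (h0 : ∀ j, P[Y j] = 0) {c : ℝ}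
    (hc : ∀ j, cov[Y j, Y j; P] ≤ c) (hXY : ∀ i j, cov[X i, Y j; P] = 0)
    (s : (J → ℝ) → J) (hs : ∀ j, MeasurableSet {x | s x = j}) :
    SubG P (fun ω => Y (s (fun i => X i ω)) ω) c := by
  classical
  have := hG.isProbabilityMeasure
  have mX : ∀ i, AEMeasurable (X i) P := fun i => hG.aemeasurable (Sum.inl i)
  have mY : ∀ i, AEMeasurable (Y i) P := fun i => hG.aemeasurable (Sum.inr i)
  have gY : ∀ i, HasGaussianLaw (Y i) P := fun i => hG.hasGaussianLaw_eval (Sum.inr i)
  have mXX : AEMeasurable (fun ω i => X i ω) P := aemeasurable_pi_lambda _ mX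
  have hind := hG.indepFun_of_covariance_eq_zero mX mY hXY
  constructor
  · have e : (fun ω => Y (s (fun i => X i ω)) ω) = fun ω =>
        ∑ j, ({x | s x = j} : Set (J → ℝ)).indicator (fun _ => (1 : ℝ)) (fun i => X i ω) * Y j ω := by
      funext ω
      simp [Set.indicator]
    rw [e]
    apply Finset.aemeasurable_fun_sum
    intro j _
    exact ((measurable_const.indicator (hs j)).comp_aemeasurable mXX).mul (mY j)
  · intro l _
    have e : ∀ ω, ENNReal.ofReal (Real.exp (l * Y (s (fun i => X i ω)) ω)) =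
        ∑ j, ({x | s x = j} : Set (J → ℝ)).indicator (fun _ => (1 : ℝ≥0∞)) (fun i => X i ω) *
          ENNReal.ofReal (Real.exp (l * Y j ω)) := by
      intro ω
      simp [Set.indicator]
    have mI : ∀ j, AEMeasurable (fun ω =>
        ({x | s x = j} : Set (J → ℝ)).indicator (fun _ => (1 : ℝ≥0∞)) (fun i => X i ω)) P :=
      fun j => (measurable_const.indicator (hs j)).comp_aemeasurable mXX
    have mE : ∀ j, AEMeasurable (fun ω => ENNReal.ofReal (Real.exp (l * Y j ω))) P := by
      intro j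
      have := mY j
      fun_prop
    simp_rw [e]
    rw [lintegral_finsetSum' _ (fun j _ => (mI j).fun_mul (mE j))]
    have h2 : ∀ j ∈ (Finset.univ : Finset J), ∫⁻ ω,
        ({x | s x = j} : Set (J → ℝ)).indicator (fun _ => (1 : ℝ≥0∞)) (fun i => X i ω) *
          ENNReal.ofReal (Real.exp (l * Y j ω)) ∂P ≤
        (∫⁻ ω, ({x | s x = j} : Set (J → ℝ)).indicator (fun _ => (1 : ℝ≥0∞))
          (fun i => X i ω) ∂P) * ENNReal.ofReal (Real.exp (c * l ^ 2 / 2)) := by
      intro j _
      rw [lintegral_mul_eq_lintegral_mul_lintegral_of_indepFun'' (mI j) (mE j)]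
      · gcongr
        exact lintegral_exp_gaussian (gY j) (h0 j) (hc j) l
      · exact hind.comp (φ := ({x | s x = j} : Set (J → ℝ)).indicator (fun _ => (1 : ℝ≥0∞)))
          (ψ := fun y : J → ℝ => ENNReal.ofReal (Real.exp (l * y j)))
          (measurable_const.indicator (hs j)) (by fun_prop)
    refine (Finset.sum_le_sum h2).trans (le_of_eq ?_)
    rw [← Finset.sum_mul, ← lintegral_finsetSum' _ (fun j _ => mI j)]
    simp [Set.indicator]

lemma cov_lin [IsFiniteMeasure P] {A B C D : Ω → ℝ} (hA : MemLp A 2 P) (hB : MemLp B 2 P)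
    (hC : MemLp C 2 P) (hD : MemLp D 2 P) (a b c d : ℝ) :
    cov[a • A + b • B, c • C + d • D; P] =
      a * c * cov[A, C; P] + a * d * cov[A, D; P] + b * c * cov[B, C; P] + b * d * cov[B, D; P] := by
  rw [covariance_add_left (hA.const_smul a) (hB.const_smul b)
    ((hC.const_smul c).add (hD.const_smul d)),
    covariance_add_right (hA.const_smul a) (hC.const_smul c) (hD.const_smul d),
    covariance_add_right (hB.const_smul b) (hC.const_smul c) (hD.const_smul d)]
  simp only [covariance_smul_left, covariance_smul_right]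
  ring

lemma mean_lin {A B : Ω → ℝ} (hA : Integrable A P) (hB : Integrable B P) (h0 : P[A] = 0)
    (h1 : P[B] = 0) (a b : ℝ) : P[a • A + b • B] = 0 := by
  have : P[a • A + b • B] = a * P[A] + b * P[B] := by
    simp only [Pi.add_apply, Pi.smul_apply, smul_eq_mul]
    rw [integral_add (hA.const_mul a) (hB.const_mul b), integral_const_mul, integral_const_mul]
  rw [this, h0, h1]
  ring

lemma aemeasurable_max {J : Type*} [Fintype J] {X : J → Ω → ℝ} (h : ∀ j, AEMeasurable (X j) P) :
    AEMeasurable (fun ω => ⨆ j, X j ω) P := AEMeasurable.iSup h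

theorem subG_rotation {J : Type*} [Fintype J] [Nonempty J] {U Y : J → Ω → ℝ}
    (hG : IsGaussianProcess (Sum.elim U Y) P) (hU0 : ∀ j, P[U j] = 0) (hY0 : ∀ j, P[Y j] = 0)
    (hUY : ∀ i j, cov[U i, Y j; P] = 0) (hYY : ∀ i j, cov[Y i, Y j; P] = cov[U i, U j; P])
    {c : ℝ} (hc0 : 0 ≤ c) (hc : ∀ j, cov[U j, U j; P] ≤ c) {θ : ℝ} (hθ : 0 ≤ θ) (hθ' : θ ≤ Real.pi) :
    SubG P (fun ω => (⨆ j, (Real.cos θ * U j ω + Real.sin θ * Y j ω)) - ⨆ j, U j ω)
      (c * θ ^ 2) := by
  classical
  have := hG.isProbabilityMeasure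
  have gU : ∀ i, HasGaussianLaw (U i) P := fun i => hG.hasGaussianLaw_eval (Sum.inl i)
  have gY : ∀ i, HasGaussianLaw (Y i) P := fun i => hG.hasGaussianLaw_eval (Sum.inr i)
  have mU : ∀ i, AEMeasurable (U i) P := fun i => (gU i).aemeasurable
  have mY : ∀ i, AEMeasurable (Y i) P := fun i => (gY i).aemeasurable
  have hYU : ∀ i j, cov[Y i, U j; P] = 0 := fun i j => by rw [covariance_comm, hUY]
  obtain ⟨s, hs, hmax⟩ := exists_argmax J
  let X : ℝ → J → Ω → ℝ := fun φ j => Real.cos φ • U j + Real.sin φ • Y j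
  let X' : ℝ → J → Ω → ℝ := fun φ j => (-Real.sin φ) • U j + Real.cos φ • Y j
  let Z : ℝ → Ω → ℝ := fun φ ω => X' φ (s (fun i => X φ i ω)) ω
  let M : ℝ → Ω → ℝ := fun φ ω => ⨆ j, X φ j ω
  let R : Ω → ℝ := fun ω => ∑ j, (|U j ω| + |Y j ω|)
  have hZ : ∀ φ, SubG P (Z φ) c := by
    intro φ
    apply subG_select (X := X φ) (Y := X' φ) _ _ _ _ s hs
    · apply isGaussianProcess_of_span hG
      have hU : ∀ j, U j ∈ Submodule.span ℝ (Set.range (Sum.elim U Y)) :=
        fun j => Submodule.subset_span ⟨Sum.inl j, rfl⟩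
      have hY : ∀ j, Y j ∈ Submodule.span ℝ (Set.range (Sum.elim U Y)) :=
        fun j => Submodule.subset_span ⟨Sum.inr j, rfl⟩
      rintro (j | j)
      · exact Submodule.add_mem _ (Submodule.smul_mem _ _ (hU j)) (Submodule.smul_mem _ _ (hY j))
      · exact Submodule.add_mem _ (Submodule.smul_mem _ _ (hU j)) (Submodule.smul_mem _ _ (hY j))
    · intro j
      exact mean_lin (gU j).integrable (gY j).integrable (hU0 j) (hY0 j) _ _
    · intro j
      simp only [X']
      rw [cov_lin (gU j).memLp_two (gY j).memLp_two (gU j).memLp_two (gY j).memLp_two,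
        hUY, hYU, hYY]
      have h1 := Real.sin_sq_add_cos_sq φ
      have h2 := hc j
      have : -Real.sin φ * -Real.sin φ * cov[U j, U j; P] + -Real.sin φ * Real.cos φ * 0 +
        Real.cos φ * -Real.sin φ * 0 + Real.cos φ * Real.cos φ * cov[U j, U j; P] =
        (Real.sin φ ^ 2 + Real.cos φ ^ 2) * cov[U j, U j; P] := by ring
      rw [this, h1, one_mul]
      exact h2
    · intro i j
      simp only [X, X']
      rw [cov_lin (gU i).memLp_two (gY i).memLp_two (gU j).memLp_two (gY j).memLp_two,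
        hUY, hYU, hYY]
      ring
  have hMeq : ∀ φ ω, M φ ω = X φ (s (fun i => X φ i ω)) ω := by
    intro φ ω
    apply le_antisymm
    · exact ciSup_le fun j => hmax (fun i => X φ i ω) j
    · exact le_ciSup (f := fun j => X φ j ω) (Finite.bddAbove_range _) _
  have hXR : ∀ φ j ω, X φ j ω ≤ R ω := by
    intro φ j ω
    have h1 : |U j ω| + |Y j ω| ≤ R ω :=
      Finset.single_le_sum (f := fun j => |U j ω| + |Y j ω|) (fun _ _ => by positivity)
        (Finset.mem_univ j)
    have h2 : Real.cos φ * U j ω ≤ |U j ω| := by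
      refine (le_abs_self _).trans ?_
      rw [abs_mul]
      exact mul_le_of_le_one_left (abs_nonneg _) (Real.abs_cos_le_one φ)
    have h3 : Real.sin φ * Y j ω ≤ |Y j ω| := by
      refine (le_abs_self _).trans ?_
      rw [abs_mul]
      exact mul_le_of_le_one_left (abs_nonneg _) (Real.abs_sin_le_one φ)
    simp only [X, Pi.add_apply, Pi.smul_apply, smul_eq_mul]
    linarith
  have hstep : ∀ φ δ ω, M (φ + δ) ω - M φ ω ≤
      (1 - Real.cos δ) * R ω + Real.sin δ * Z (φ + δ) ω := by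
    intro φ δ ω
    set j := s (fun i => X (φ + δ) i ω) with hj
    have h1 : X φ j ω ≤ M φ ω := le_ciSup (f := fun j => X φ j ω) (Finite.bddAbove_range _) _
    have h2 : X φ j ω = Real.cos δ * X (φ + δ) j ω - Real.sin δ * X' (φ + δ) j ω := by
      simp only [X, X', Pi.add_apply, Pi.smul_apply, smul_eq_mul, Real.cos_add, Real.sin_add]
      have := Real.sin_sq_add_cos_sq δ
      linear_combination (-(Real.cos φ * U j ω + Real.sin φ * Y j ω)) * this
    have h3 := hXR (φ + δ) j ω
    have h4 : 0 ≤ 1 - Real.cos δ := by linarith [Real.cos_le_one δ]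
    have h5 := mul_le_mul_of_nonneg_left h3 h4
    rw [hMeq (φ + δ) ω]
    simp only [Z]
    rw [← hj]
    linarith
  have mM : ∀ φ, AEMeasurable (M φ) P := by
    intro φ
    apply aemeasurable_max
    intro j
    exact ((mU j).const_smul _).add ((mY j).const_smul _)
  have mR : AEMeasurable R P := by
    apply Finset.aemeasurable_fun_sum
    intro j _
    have := mU j
    have := mY j
    fun_prop
  let F : ℕ → Ω → ℝ := fun m ω =>
    M θ ω - M 0 ω - ((m + 1 : ℕ) * (1 - Real.cos (θ / (m + 1 : ℕ)))) * R ω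
  have hF : ∀ m, SubG P (F m) (c * θ ^ 2) := by
    intro m
    set δ : ℝ := θ / (m + 1 : ℕ) with hδ
    have hm : (0 : ℝ) < (m + 1 : ℕ) := by positivity
    have hm1 : (1 : ℝ) ≤ (m + 1 : ℕ) := by exact_mod_cast Nat.succ_pos m
    have hδ0 : 0 ≤ δ := by positivity
    have hδθ : δ ≤ θ := div_le_self hθ hm1
    have hs0 : 0 ≤ Real.sin δ := Real.sin_nonneg_of_nonneg_of_le_pi hδ0 (hδθ.trans hθ')
    have hav := SubG.average (P := P) (m := m + 1) (Nat.succ_pos m)
      (Z := fun k => Z (k * δ + δ)) hs0 (fun k => hZ _)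
    have hle : ((m + 1 : ℕ) : ℝ) * Real.sin δ ≤ θ := by
      have h1 := Real.sin_le hδ0
      have h2 : ((m + 1 : ℕ) : ℝ) * δ = θ := by rw [hδ]; field_simp
      nlinarith
    refine (hav.of_le ?_ ?_).mono ?_
    · have := mM θ
      have := mM 0
      simp only [F]
      fun_prop
    · intro ω
      have h1 : ∑ k ∈ Finset.range (m + 1), (M (((k + 1 : ℕ) : ℝ) * δ) ω - M ((k : ℝ) * δ) ω) =
          M θ ω - M 0 ω := by
        rw [Finset.sum_range_sub (fun k : ℕ => M ((k : ℝ) * δ) ω)]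
        congr 2
        · rw [hδ]; field_simp
        · simp
      have h2 : ∑ k ∈ Finset.range (m + 1), (M (((k + 1 : ℕ) : ℝ) * δ) ω - M ((k : ℝ) * δ) ω) ≤
          ∑ k ∈ Finset.range (m + 1),
            ((1 - Real.cos δ) * R ω + Real.sin δ * Z ((k : ℝ) * δ + δ) ω) := by
        apply Finset.sum_le_sum
        intro k _
        have e : ((k + 1 : ℕ) : ℝ) * δ = (k : ℝ) * δ + δ := by push_cast; ring
        rw [e]
        exact hstep _ _ _
      rw [h1, Finset.sum_add_distrib, Finset.sum_const, Finset.card_range, nsmul_eq_mul,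
        ← Finset.mul_sum] at h2
      simp only [F]
      rw [← hδ]
      linarith
    · apply mul_le_mul_of_nonneg_left _ hc0
      exact pow_le_pow_left₀ (by positivity) hle 2
  have hlim0 : Tendsto (fun m : ℕ => ((m + 1 : ℕ) : ℝ) * (1 - Real.cos (θ / (m + 1 : ℕ))))
      atTop (𝓝 0) := by
    have h1 : Tendsto (fun m : ℕ => θ ^ 2 / 2 * (1 / ((m : ℝ) + 1))) atTop (𝓝 0) := by
      have := (tendsto_one_div_add_atTop_nhds_zero_nat (𝕜 := ℝ)).const_mul (θ ^ 2 / 2)
      rwa [mul_zero] at this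
    refine squeeze_zero (fun m => ?_) (fun m => ?_) h1
    · have := Real.cos_le_one (θ / (m + 1 : ℕ))
      have : (0 : ℝ) ≤ 1 - Real.cos (θ / (m + 1 : ℕ)) := by linarith
      positivity
    · have h2 := Real.one_sub_sq_div_two_le_cos (x := θ / (m + 1 : ℕ))
      have hm : (0 : ℝ) < (m + 1 : ℕ) := by positivity
      have h3 : θ ^ 2 / 2 * (1 / ((m : ℝ) + 1)) =
          ((m + 1 : ℕ) : ℝ) * ((θ / (m + 1 : ℕ)) ^ 2 / 2) := by
        push_cast
        field_simp
      rw [h3]
      apply mul_le_mul_of_nonneg_left _ hm.le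
      linarith
  have hfin : SubG P (fun ω => M θ ω - M 0 ω) (c * θ ^ 2) := by
    apply SubG.of_tendsto hF
    refine ae_of_all _ fun ω => ?_
    have := (hlim0.mul_const (R ω)).const_sub (M θ ω - M 0 ω)
    simpa [F] using this
  simpa [M, X] using hfin

lemma arccos_exp_sq_le {t : ℝ} (ht : 0 ≤ t) : Real.arccos (Real.exp (-t)) ^ 2 ≤ 2 * t := by
  set θ := Real.arccos (Real.exp (-t)) with hθ
  have h0 : 0 ≤ θ := Real.arccos_nonneg _
  have h1 : θ ≤ Real.pi / 2 := Real.arccos_le_pi_div_two.2 (Real.exp_pos _).le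
  have hcos : Real.cos θ = Real.exp (-t) :=
    Real.cos_arccos (by linarith [Real.exp_pos (-t)]) (Real.exp_le_one_iff.2 (by linarith))
  have hder : ∀ x : ℝ, HasDerivAt (fun x => Real.exp (x ^ 2 / 2) * Real.cos x)
      (Real.exp (x ^ 2 / 2) * (x * Real.cos x - Real.sin x)) x := by
    intro x
    have a1 : HasDerivAt (fun x : ℝ => x ^ 2 / 2) x x := by
      simpa using (hasDerivAt_pow 2 x).div_const 2
    have := a1.exp.mul (Real.hasDerivAt_cos x)
    exact this.congr_deriv (by ring)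
  have hanti : AntitoneOn (fun x => Real.exp (x ^ 2 / 2) * Real.cos x) (Set.Icc 0 (Real.pi / 2)) := by
    apply antitoneOn_of_deriv_nonpos (convex_Icc _ _)
    · exact fun x _ => (hder x).continuousAt.continuousWithinAt
    · exact fun x _ => (hder x).differentiableAt.differentiableWithinAt
    · intro x hx
      rw [interior_Icc] at hx
      rw [(hder x).deriv]
      apply mul_nonpos_of_nonneg_of_nonpos (Real.exp_pos _).le
      have h2 := Real.lt_tan hx.1 hx.2
      have h3 : 0 < Real.cos x := Real.cos_pos_of_mem_Ioo ⟨by linarith [hx.1, Real.pi_pos], hx.2⟩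
      rw [Real.tan_eq_sin_div_cos, lt_div_iff₀ h3] at h2
      linarith
  have h4 := hanti ⟨le_rfl, by positivity⟩ ⟨h0, h1⟩ h0
  simp only [hcos, ← Real.exp_add] at h4
  simp at h4
  linarith

theorem subG_max_sub_max {J : Type*} [Fintype J] [Nonempty J] {U V : J → Ω → ℝ}
    (hG : IsGaussianProcess (Sum.elim U V) P) (hU0 : ∀ j, P[U j] = 0) (hV0 : ∀ j, P[V j] = 0)
    {t : ℝ} (ht : 0 < t)
    (hUV : ∀ i j, cov[U i, V j; P] = Real.exp (-t) * cov[U i, U j; P])
    (hVV : ∀ i j, cov[V i, V j; P] = cov[U i, U j; P])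
    {c : ℝ} (hc0 : 0 ≤ c) (hc : ∀ j, cov[U j, U j; P] ≤ c) :
    SubG P (fun ω => (⨆ j, V j ω) - ⨆ j, U j ω) (c * (2 * t)) := by
  have := hG.isProbabilityMeasure
  have gU : ∀ i, HasGaussianLaw (U i) P := fun i => hG.hasGaussianLaw_eval (Sum.inl i)
  have gV : ∀ i, HasGaussianLaw (V i) P := fun i => hG.hasGaussianLaw_eval (Sum.inr i)
  set θ := Real.arccos (Real.exp (-t)) with hθ
  have hlt : Real.exp (-t) < 1 := Real.exp_lt_one_iff.2 (by linarith)
  have hcos : Real.cos θ = Real.exp (-t) :=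
    Real.cos_arccos (by linarith [Real.exp_pos (-t)]) hlt.le
  have hpos : 0 < θ := Real.arccos_pos.2 hlt
  have h1 : θ ≤ Real.pi / 2 := Real.arccos_le_pi_div_two.2 (Real.exp_pos _).le
  have hsin : 0 < Real.sin θ := Real.sin_pos_of_pos_of_lt_pi hpos (by linarith [Real.pi_pos])
  have hVU : ∀ i j, cov[V i, U j; P] = Real.exp (-t) * cov[U i, U j; P] := fun i j => by
    rw [covariance_comm, hUV, covariance_comm]
  let Y : J → Ω → ℝ := fun j => (-Real.cos θ / Real.sin θ) • U j + (1 / Real.sin θ) • V j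
  have key := subG_rotation (P := P) (U := U) (Y := Y) (c := c) (θ := θ) ?_ hU0 ?_ ?_ ?_ hc0 hc
    hpos.le (by linarith [Real.pi_pos])
  · have e : ∀ j ω, Real.cos θ * U j ω + Real.sin θ * Y j ω = V j ω := by
      intro j ω
      simp only [Y, Pi.add_apply, Pi.smul_apply, smul_eq_mul]
      field_simp
      ring
    simp only [e] at key
    exact key.mono (mul_le_mul_of_nonneg_left (arccos_exp_sq_le ht.le) hc0)
  · apply isGaussianProcess_of_span hG
    have hU : ∀ j, U j ∈ Submodule.span ℝ (Set.range (Sum.elim U V)) :=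
      fun j => Submodule.subset_span ⟨Sum.inl j, rfl⟩
    have hV : ∀ j, V j ∈ Submodule.span ℝ (Set.range (Sum.elim U V)) :=
      fun j => Submodule.subset_span ⟨Sum.inr j, rfl⟩
    rintro (j | j)
    · exact hU j
    · exact Submodule.add_mem _ (Submodule.smul_mem _ _ (hU j)) (Submodule.smul_mem _ _ (hV j))
  · intro j
    exact mean_lin (gU j).integrable (gV j).integrable (hU0 j) (hV0 j) _ _
  · intro i j
    have := cov_lin (gU i).memLp_two (gU i).memLp_two (gU j).memLp_two (gV j).memLp_two 1 0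
      (-Real.cos θ / Real.sin θ) (1 / Real.sin θ)
    simp only [one_smul, zero_smul, add_zero] at this
    simp only [Y]
    rw [this, hUV, ← hcos]
    ring
  · intro i j
    simp only [Y]
    rw [cov_lin (gU i).memLp_two (gV i).memLp_two (gU j).memLp_two (gV j).memLp_two,
      hUV, hVU, hVV, ← hcos]
    have h2 := Real.sin_sq_add_cos_sq θ
    field_simp
    linear_combination (-cov[U i, U j; P]) * h2

end Pool.Agent.Lib.MP_29ad01_pr
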