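import Pool.Agent.Lib.MP_29ad01_pr.Defs
import Pool.Agent.Lib.MP_29ad01_pr.Rotation

set_option autoImplicit false
open MeasureTheory ProbabilityTheory Filter Topology
open scoped ENNReal NNReal

namespace Pool.Agent.Lib.MP_29ad01_pr

/-- admissible jump times -/
abbrev Adm (n : ℕ) : Type :=
  {z : Fin (n + 2) → ℝ≥0 // Monotone z ∧ z 0 = 0 ∧ z (Fin.last (n + 1)) = n}

instance (n : ℕ) : Nonempty (Adm n) :=
  ⟨⟨fun i => if i = 0 then 0 else n, by
    intro i j hij
    by_cases hi : i = 0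
    · simp [hi]
    · have hj : j ≠ 0 := by
        rintro rfl
        exact hi (le_antisymm hij (Fin.zero_le _))
      simp [hi, hj], by simp, by simp⟩⟩

/-- weight of a path -/
def wt (n : ℕ) (b : ℕ → ℝ≥0 → ℝ) (z : Adm n) : ℝ :=
  ∑ i : Fin (n + 1), (b i (z.1 i.succ) - b i (z.1 i.castSucc))

lemma lpp_eq (n : ℕ) (b : ℕ → ℝ≥0 → ℝ) : lpp n b = sSup (Set.range (wt n b)) := by
  unfold lpp
  congr 1
  ext s
  constructor
  · rintro ⟨z, h1, h2, h3, rfl⟩
    exact ⟨⟨z, h1, h2, h3⟩, rfl⟩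
  · rintro ⟨z, rfl⟩
    exact ⟨z.1, z.2.1, z.2.2.1, z.2.2.2, rfl⟩

lemma continuous_wt (n : ℕ) {b : ℕ → ℝ≥0 → ℝ} (hb : ∀ i, Continuous (b i)) :
    Continuous (wt n b) := by
  unfold wt
  refine continuous_finsetSum _ fun i _ => ?_
  have h : ∀ k, Continuous fun z : Adm n => z.1 k :=
    fun k => (continuous_apply k).comp continuous_subtype_val
  exact ((hb i).comp (h _)).sub ((hb i).comp (h _))

lemma bddAbove_wt (n : ℕ) {b : ℕ → ℝ≥0 → ℝ} (hb : ∀ i, Continuous (b i)) :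
    BddAbove (Set.range (wt n b)) := by
  have h : ∀ i, ∃ C, ∀ x ∈ Set.Icc (0 : ℝ≥0) n, ‖b i x‖ ≤ C :=
    fun i => isCompact_Icc.exists_bound_of_continuousOn (hb i).continuousOn
  choose C hC using h
  refine ⟨∑ i : Fin (n + 1), 2 * C i, ?_⟩
  rintro _ ⟨z, rfl⟩
  apply Finset.sum_le_sum
  intro i _
  have hz : ∀ k, z.1 k ∈ Set.Icc (0 : ℝ≥0) n :=
    fun k => ⟨zero_le, (z.2.1 (Fin.le_last k)).trans_eq z.2.2.2⟩
  have h1 := hC i _ (hz i.succ)
  have h2 := hC i _ (hz i.castSucc)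
  rw [Real.norm_eq_abs, abs_le] at h1 h2
  linarith [h1.2, h2.1]

lemma tendsto_lpp (n : ℕ) {b : ℕ → ℝ≥0 → ℝ} (hb : ∀ i, Continuous (b i)) :
    Tendsto (fun N : ℕ => ⨆ j : Fin (N + 1), wt n b (TopologicalSpace.denseSeq (Adm n) j))
      atTop (𝓝 (lpp n b)) := by
  rw [lpp_eq, tendsto_order]
  constructor
  · intro a ha
    obtain ⟨_, ⟨z, rfl⟩, hz⟩ := exists_lt_of_lt_csSup (Set.range_nonempty _) ha
    obtain ⟨k, hk⟩ := (TopologicalSpace.denseRange_denseSeq (Adm n)).exists_mem_open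
      (isOpen_lt continuous_const (continuous_wt n hb)) ⟨z, hz⟩
    filter_upwards [eventually_ge_atTop k] with N hN
    refine lt_of_lt_of_le hk ?_
    exact le_ciSup (f := fun j : Fin (N + 1) => wt n b (TopologicalSpace.denseSeq (Adm n) j))
      (Finite.bddAbove_range _) ⟨k, by omega⟩
  · intro a ha
    refine Eventually.of_forall fun N => lt_of_le_of_lt ?_ ha
    exact ciSup_le fun j => le_csSup (bddAbove_wt n hb) ⟨_, rfl⟩

variable {Ω : Type*} {mΩ : MeasurableSpace Ω} {P : Measure Ω}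

/-- overlap kernel of two paths -/
noncomputable def ker (n : ℕ) (z w : Adm n) : ℝ :=
  ∑ i : Fin (n + 1), (min (z.1 i.succ : ℝ) (w.1 i.succ) - min (z.1 i.succ : ℝ) (w.1 i.castSucc)
    - (min (z.1 i.castSucc : ℝ) (w.1 i.succ) - min (z.1 i.castSucc : ℝ) (w.1 i.castSucc)))

lemma ker_self (n : ℕ) (z : Adm n) : ker n z z = n := by
  have h : ∀ i : Fin (n + 1), (z.1 i.castSucc : ℝ) ≤ z.1 i.succ :=
    fun i => by exact_mod_cast z.2.1 i.castSucc_le_succ
  have h1 : ker n z z = ∑ i : Fin (n + 1), ((z.1 i.succ : ℝ) - z.1 i.castSucc) := by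
    apply Finset.sum_congr rfl
    intro i _
    rw [min_self, min_self, min_eq_right (h i), min_eq_left (h i)]
    ring
  have h2 := Fin.sum_univ_succ (fun k : Fin (n + 2) => (z.1 k : ℝ))
  have h3 := Fin.sum_univ_castSucc (fun k : Fin (n + 2) => (z.1 k : ℝ))
  rw [h1, Finset.sum_sub_distrib]
  rw [z.2.2.1] at h2
  rw [z.2.2.2] at h3
  simp only [NNReal.coe_zero, NNReal.coe_natCast] at h2 h3
  linarith

section
variable {B : ℕ → ℝ≥0 → ℝ≥0 → Ω → ℝ}
  (hG : IsGaussianProcess (fun p : ℕ × ℝ≥0 × ℝ≥0 => B p.1 p.2.1 p.2.2) P)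
  (hmean : ∀ i t x, ∫ ω, B i t x ω ∂P = 0)
  (hcov : ∀ i j s t x y, ∫ ω, B i s x ω * B j t y ω ∂P =
    if i = j then Real.exp (-|(s : ℝ) - t|) * min (x : ℝ) y else 0)

include hG hmean hcov in
lemma cov_wt (n : ℕ) (s t : ℝ≥0) (z w : Adm n) :
    cov[fun ω => wt n (fun i x => B i s x ω) z, fun ω => wt n (fun i x => B i t x ω) w; P] =
      Real.exp (-|(s : ℝ) - t|) * ker n z w := by
  have := hG.isProbabilityMeasure
  have h2 : ∀ i t x, MemLp (B i t x) 2 P :=
    fun i t x => (hG.hasGaussianLaw_eval (i, t, x)).memLp_two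
  have hc : ∀ i j x y, cov[B i s x, B j t y; P] =
      if i = j then Real.exp (-|(s : ℝ) - t|) * min (x : ℝ) y else 0 := by
    intro i j x y
    rw [covariance_eq_sub (h2 _ _ _) (h2 _ _ _), ← hcov]
    simp [hmean]
  have e : ∀ (r : ℝ≥0) (v : Adm n), (fun ω => wt n (fun i x => B i r x ω) v) = fun ω =>
      ∑ i : Fin (n + 1), (B i r (v.1 i.succ) - B i r (v.1 i.castSucc)) ω := fun _ _ => rfl
  rw [e, e, covariance_fun_sum_fun_sum (fun i => (h2 _ _ _).sub (h2 _ _ _))
    (fun i => (h2 _ _ _).sub (h2 _ _ _)), ker, Finset.mul_sum]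
  apply Finset.sum_congr rfl
  intro i _
  rw [Finset.sum_eq_single i]
  · rw [covariance_sub_left (h2 _ _ _) (h2 _ _ _) ((h2 _ _ _).sub (h2 _ _ _)),
      covariance_sub_right (h2 _ _ _) (h2 _ _ _) (h2 _ _ _),
      covariance_sub_right (h2 _ _ _) (h2 _ _ _) (h2 _ _ _)]
    simp only [hc, if_true]
    ring
  · intro j _ hji
    have hij : (i : ℕ) ≠ j := fun h => hji (Fin.ext h).symm
    rw [covariance_sub_left (h2 _ _ _) (h2 _ _ _) ((h2 _ _ _).sub (h2 _ _ _)),
      covariance_sub_right (h2 _ _ _) (h2 _ _ _) (h2 _ _ _),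
      covariance_sub_right (h2 _ _ _) (h2 _ _ _) (h2 _ _ _)]
    simp [hc, hij]
  · simp

include hG hmean in
lemma mean_wt (n : ℕ) (s : ℝ≥0) (z : Adm n) :
    ∫ ω, wt n (fun i x => B i s x ω) z ∂P = 0 := by
  have h2 : ∀ i t x, Integrable (B i t x) P :=
    fun i t x => (hG.hasGaussianLaw_eval (i, t, x)).integrable
  have e : (fun ω => wt n (fun i x => B i s x ω) z) = fun ω =>
      ∑ i : Fin (n + 1), (B i s (z.1 i.succ) - B i s (z.1 i.castSucc)) ω := rfl
  rw [e, integral_finsetSum _ (fun i _ => (h2 _ _ _).sub (h2 _ _ _))]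
  apply Finset.sum_eq_zero
  intro i _
  simp only [Pi.sub_apply]
  rw [integral_sub (h2 _ _ _) (h2 _ _ _), hmean, hmean, sub_zero]

lemma wt_span (n : ℕ) (s : ℝ≥0) (z : Adm n) :
    (fun ω => wt n (fun i x => B i s x ω) z) ∈ Submodule.span ℝ
      (Set.range (fun p : ℕ × ℝ≥0 × ℝ≥0 => B p.1 p.2.1 p.2.2)) := by
  have : (fun ω => wt n (fun i x => B i s x ω) z) =
      ∑ i : Fin (n + 1), (B i s (z.1 i.succ) - B i s (z.1 i.castSucc)) := by
    funext ω
    simp [wt]
  rw [this]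
  apply Submodule.sum_mem
  intro i _
  exact Submodule.sub_mem _ (Submodule.subset_span ⟨(i, s, _), rfl⟩)
    (Submodule.subset_span ⟨(i, s, _), rfl⟩)

include hG hmean hcov in
theorem subG_lpp (hcont : ∀ i t, ∀ᵐ ω ∂P, Continuous fun x => B i t x ω) (n : ℕ) (s t : ℝ≥0)
    (hst : s ≠ t) :
    SubG P (fun ω => lpp n (fun i x => B i t x ω) - lpp n (fun i x => B i s x ω))
      (n * (2 * |(s : ℝ) - t|)) := by
  have hpos : 0 < |(s : ℝ) - t| := abs_pos.2 (sub_ne_zero.2 (by exact_mod_cast hst))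
  apply SubG.of_tendsto (F := fun N ω =>
    (⨆ j : Fin (N + 1), wt n (fun i x => B i t x ω) (TopologicalSpace.denseSeq (Adm n) j)) -
    ⨆ j : Fin (N + 1), wt n (fun i x => B i s x ω) (TopologicalSpace.denseSeq (Adm n) j))
  · intro N
    apply subG_max_sub_max
      (U := fun (j : Fin (N + 1)) ω =>
        wt n (fun i x => B i s x ω) (TopologicalSpace.denseSeq (Adm n) j))
      (V := fun (j : Fin (N + 1)) ω =>
        wt n (fun i x => B i t x ω) (TopologicalSpace.denseSeq (Adm n) j))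
      _ _ _ hpos
    · intro i j
      rw [cov_wt hG hmean hcov, cov_wt hG hmean hcov]
      simp
    · intro i j
      rw [cov_wt hG hmean hcov, cov_wt hG hmean hcov]
      simp
    · positivity
    · intro j
      rw [cov_wt hG hmean hcov, ker_self]
      simp
    · apply isGaussianProcess_of_span hG
      rintro (j | j)
      · exact wt_span n s _
      · exact wt_span n t _
    · exact fun j => mean_wt hG hmean n s _
    · exact fun j => mean_wt hG hmean n t _
  · filter_upwards [ae_all_iff.2 fun i => hcont i t, ae_all_iff.2 fun i => hcont i s]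
      with ω h1 h2
    exact (tendsto_lpp n h1).sub (tendsto_lpp n h2)

include hG hmean hcov in
theorem tail_bound (hcont : ∀ i t, ∀ᵐ ω ∂P, Continuous fun x => B i t x ω) (n : ℕ) (hn : 1 ≤ n)
    (t : ℝ≥0) (ht : 0 < t) (α : ℝ) (hα : 0 < α) :
    P.real {ω | α * √(n * t) ≤ |lpp n (fun i x => B i t x ω) - lpp n (fun i x => B i 0 x ω)|}
      ≤ 2 * Real.exp (-α ^ 2 / 4) := by
  have hn' : (0 : ℝ) < n := by exact_mod_cast hn
  have ht' : (0 : ℝ) < t := ht
  have h1 := subG_lpp hG hmean hcov hcont n 0 t ht.ne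
  have h2 := subG_lpp hG hmean hcov hcont n t 0 ht.ne'
  simp only [NNReal.coe_zero, zero_sub, sub_zero, abs_neg, abs_of_pos ht'] at h1 h2
  have he : 0 ≤ α * √(n * t) := by positivity
  have k1 := h1.tail (by positivity) he
  have k2 := h2.tail (by positivity) he
  have e : -(α * √(n * t)) ^ 2 / (2 * (n * (2 * (t : ℝ)))) = -α ^ 2 / 4 := by
    rw [mul_pow, Real.sq_sqrt (by positivity)]
    field_simp
    ring
  rw [e] at k1 k2
  have hsub : {ω | α * √(n * t) ≤
      |lpp n (fun i x => B i t x ω) - lpp n (fun i x => B i 0 x ω)|} ⊆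
      {ω | α * √(n * t) ≤ lpp n (fun i x => B i t x ω) - lpp n (fun i x => B i 0 x ω)} ∪
      {ω | α * √(n * t) ≤ lpp n (fun i x => B i 0 x ω) - lpp n (fun i x => B i t x ω)} := by
    intro ω hω
    rw [Set.mem_ofPred_eq] at hω
    rcases le_abs'.1 hω with h | h
    · right
      rw [Set.mem_ofPred_eq]
      linarith
    · left
      exact h
  have k3 := (measure_mono (μ := P) hsub).trans ((measure_union_le _ _).trans (add_le_add k1 k2))
  rw [← ENNReal.ofReal_add (Real.exp_pos _).le (Real.exp_pos _).le, ← two_mul] at k3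
  exact ENNReal.toReal_le_of_le_ofReal (by positivity) k3

end

end Pool.Agent.Lib.MP_29ad01_pr
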